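import Pool.Agent.V11235.SJ.Set

/-!
# 100% of all superelliptic curves over finitely generated fields, over all extensions of degree prime to `ℓ`

Let `k` be any field finitely generated over `ℚ`, that is, the fraction field of a domain `R` of
characteristic zero that is finitely generated as a ring.  Let `d ≥ 3`, and for
`(a, c₀, …, c_d) ∈ R^(d+2)` consider the superelliptic curves

  `C_n : a yⁿ = c₀ + c₁ x + … + c_d x^d`;

all coefficients vary.  We prove that for 100% of the vectors `(a, c₀, …, c_d)` we have for all prime
numbers `ℓ` that divide `d`, for **all** finite extensions `k'` of `k` whose degree is not divisible by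
`ℓ`, and for all `n ≥ 1` divisible by `ℓ`: the curve `C_n` has no point over `k'`, and its fundamental
group over `k'` has no section, also when any set of closed points of the curve over `k'` is removed;
and for `n = ℓ` already the geometrically pro-`ℓ` fundamental group of the curve over `k'` has no
section.  So 100% of these curves, and all smooth curves over `k'` that dominate one of them, satisfy
the section conjecture over all these `k'` at once.  For instance, 100% of the hyperelliptic curves
`a y² = f(x)` of a given genus `g ≥ 2`, `deg f = 2 g + 2`, have neither points nor sections over all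
extensions of `k` of odd degree, and already their geometrically pro-2 fundamental groups have no
sections.  The set of the exceptional vectors has density zero in a strong sense: for every `ε > 0`
there is an ideal `I` of `R` of finite index such that the exceptional vectors lie in at most
`ε #(R/I)^(d+2)` residue classes modulo `I`.

The starting hand-in `MP_e66f84_ag.SuperellipticFamilies` has `k' = k` and no assertion on the
geometrically pro-`ℓ` fundamental group.

The fundamental group is described through valuations.  Let `U` be a smooth geometrically connected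
curve over `k` with function field `F`, let `Ω` be an algebraic closure of `F`, and let `F_U` be the
maximal extension of `F` inside `Ω` which is unramified over the closed points of `U`, that is, over
their local rings, which are valuation rings of `F`.  Then `π₁(U) = Gal(F_U/F)`, and the map
`π₁(U) → G_k` is the restriction of automorphisms to the algebraic closure of `k` in `Ω`.

Proof.  One finds a number field `L` and a homomorphism `P : R → L` such that for almost all primes `v`
of `L` there is an embedding `ψ : k → L_v` with `ψ(r) ≡ P(r)` modulo `v²` for all `r ∈ R`; it induces a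
discrete valuation on `k` with finite residue field.  Let `v` be such a prime of prime norm.  Then
`P(c₀) + … + P(c_d) x^d` is irreducible of degree `d` modulo `v` for at least
`(N v - 1) (N v)^d / 2d` of the classes of the coefficients modulo `v`, and `P(a)` has valuation one for
`N v - 1` of the classes modulo `v²`.  As the sum of the `1/N v` diverges, 100% of the vectors satisfy
both conditions for some `v` (library `Pool.Agent.TH377.Sup`).  Let `k'/k` be a finite extension whose
degree is not divisible by the divisor `ℓ` of `d`.  Some place `w` of `k'` over the discrete valuation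
of `k` given by `ψ` has a ramification index and a residue degree not divisible by `ℓ`, because the
sum of their products is `[k' : k]`.  So `w(a)` is not divisible by `ℓ`, and the polynomial has modulo
`w` no root in the residue field of `w`, nor in its extensions of degree prime to `ℓ`: its roots
generate the extension of degree `d` of the residue field of `v`.  Now the local theorem for the
geometrically pro-`ℓ` fundamental group (library `Pool.Agent.Y141.PS`, `Pool.Agent.Y157.PS`) applies.
-/

set_option autoImplicit false

open Polynomial NumberField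

namespace Pool.Agent.Results.MP_e66f84_ag.AllCurvesPrimeToEll

section definitions

variable (ℓ : ℕ) (k F Ω : Type) [Field k] [Field F] [Field Ω] [Algebra k F] [Algebra F Ω]
  [Algebra k Ω]

/-- The inertia group of the valuation ring `W` of `Ω`, as a subgroup of `Gal(Ω/F)`: the
automorphisms of `Ω` over `F` that map `W` onto itself and act as the identity on its residue
field. -/
noncomputable def inertia (W : ValuationSubring Ω) : Subgroup (Ω ≃ₐ[F] Ω) :=
  (W.inertiaSubgroup F).map (W.decompositionSubgroup F).subtype

/-- `F_U`, for a set `U` of valuation rings of `F`: the elements of `Ω` fixed by the inertia groups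
of all valuation rings `W` of `Ω` with `W ∩ F ∈ U`.  If `Ω` is an algebraic closure of a field `F`
of characteristic zero, this is the maximal extension of `F` in `Ω` unramified over `U`. -/
noncomputable def unramified (U : Set (ValuationSubring F)) : IntermediateField F Ω :=
  ⨅ W : {W : ValuationSubring Ω // W.comap (algebraMap F Ω) ∈ U},
    IntermediateField.fixedField (inertia F Ω W.1)

/-- `k̄ F`, the compositum of `F` and of the algebraic closure of `k` in `Ω`. -/
noncomputable def geomField : IntermediateField F Ω :=
  IntermediateField.adjoin F (algebraicClosure k Ω : Set Ω)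

/-- The algebraic extension `L` of `K` in `Ω` is unramified at all valuation rings of `Ω` that
contain `k`: every nonzero element of `L` has the same valuation as an element of `K`.  (If `K` is
a function field of one variable over the algebraic closure of `k` and `k` has characteristic zero,
then this says that `L/K` is unramified over all points of the smooth projective curve.) -/
def Unramified {k K Ω : Type} [Field k] [Field K] [Field Ω] [Algebra k Ω] [Algebra K Ω]
    (L : IntermediateField K Ω) : Prop :=
  ∀ W : ValuationSubring Ω, (∀ c : k, algebraMap k Ω c ∈ W) → ∀ z ∈ L, z ≠ 0 →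
    ∃ t : K, t ≠ 0 ∧ z / algebraMap K Ω t ∈ W ∧ (z / algebraMap K Ω t)⁻¹ ∈ W

/-- `L/K` is a finite Galois extension whose degree is a power of `ℓ`. -/
def FiniteProEll (ℓ : ℕ) {K Ω : Type} [Field K] [Field Ω] [Algebra K Ω]
    (L : IntermediateField K Ω) : Prop :=
  FiniteDimensional K L ∧ IsGalois K L ∧ ∃ m : ℕ, Module.finrank K L = ℓ ^ m

/-- The maximal unramified pro-`ℓ` extension of `K` in `Ω`: the compositum of the finite Galois
extensions of `K` whose degree is a power of `ℓ` and which are unramified. -/
noncomputable def maxProEll (ℓ : ℕ) (k K Ω : Type) [Field k] [Field K] [Field Ω] [Algebra k Ω]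
    [Algebra K Ω] : IntermediateField K Ω :=
  ⨆ L : {L : IntermediateField K Ω // FiniteProEll ℓ L ∧ Unramified (k := k) L}, L.1

/-- `M`, the maximal unramified pro-`ℓ` extension of `k̄ F` in `Ω`, as an extension of `F`. -/
noncomputable def proEllField : IntermediateField F Ω :=
  (maxProEll ℓ k (geomField k F Ω) Ω).restrictScalars F

/-- The map `τ : M → M` acts as `σ : K → K` on the elements that the fields `K` and `M` have in
common when they are regarded as subfields of `Ω` through `i` and `j`. -/
def ActsAs {K M Ω : Type} [Field K] [Field M] [Field Ω] (i : K →+* Ω) (j : M →+* Ω) (σ : K → K)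
    (τ : M → M) : Prop :=
  ∀ c z, j z = i c → j (τ z) = i (σ c)

/-- Let `k ⊆ K ⊆ Ω` and `F ⊆ N ⊆ Ω` be fields.  A splitting of `Gal(N/F) → Gal(K/k)`: a continuous
homomorphism `s` from `Gal(K/k)` to `Gal(N/F)` such that `s(σ)` acts as `σ` on the elements of
`K ∩ N`. -/
structure Splitting (K N : Type) [Field K] [Field N] [Algebra k K] [Algebra F N] [Algebra K Ω]
    [Algebra N Ω] where
  /-- the homomorphism `Gal(K/k) → Gal(N/F)` -/
  toHom : (K ≃ₐ[k] K) →* (N ≃ₐ[F] N)
  cont : Continuous toHom
  compat : ∀ σ : K ≃ₐ[k] K, ActsAs (algebraMap K Ω) (algebraMap N Ω) σ (toHom σ)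

/-- There are no sections of `Gal(N/F) → G_k`, where `G_k = Gal(k̄/k)` and `k̄` is the algebraic
closure of `k` in `Ω`.  For `N = F_U` these are the sections of `π₁(U) → G_k`. -/
def NoSplitting (N : IntermediateField F Ω) : Prop :=
  IsEmpty (Splitting k F Ω (algebraicClosure k Ω) N)

end definitions

section curves

variable {k : Type} [Field k]

/-- The smooth projective curve with the affine equation `a yⁿ = f(x)` has no point over `k`:
neither in the affine part nor at infinity. -/
def NoPoint (n : ℕ) (a : k) (f : k[X]) : Prop :=
  (¬ ∃ x y : k, a * y ^ n = f.eval x) ∧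
    ¬ ∃ r : k, a * r ^ Nat.gcd n f.natDegree = f.leadingCoeff

/-- Let `F` be any field over `k` that contains a point `(x, y)` of the curve `a yⁿ = f(x)`, for
instance the function field of the curve, and let `Ω` be an algebraic closure of `F`.  Then for
every set `U` of valuation rings of `F` over `k` there is no section of `π₁(U) → G_k`.  If `F` is the
function field of the curve, such `U` are given by the smooth projective curve and by all its open
subcurves. -/
def NoSection (n : ℕ) (a : k) (f : k[X]) : Prop :=
  ∀ (F Ω : Type) [Field F] [Field Ω] [Algebra k F] [Algebra F Ω] [Algebra k Ω]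
    [IsScalarTower k F Ω] [IsAlgClosure F Ω] (x y : F) (U : Set (ValuationSubring F)),
    algebraMap k F a * y ^ n = aeval x f → (∀ O ∈ U, ∀ c : k, algebraMap k F c ∈ O) →
      NoSplitting k F Ω (unramified F Ω U)

/-- Let `F = k(x, y)` be the function field of the curve `a y^ℓ = f(x)`, let `Ω` be an algebraic
closure of `F`, and let `M` be the maximal unramified pro-`ℓ` extension of `k̄ F`.  For all
extensions `N ⊇ M` of `F` in `Ω`, in particular for `N = M`, there is no section of
`Gal(N/F) → G_k`. -/
def NoProEllSection (ℓ : ℕ) (a : k) (f : k[X]) : Prop :=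
  ∀ (F Ω : Type) [Field F] [Field Ω] [Algebra k F] [Algebra F Ω] [Algebra k Ω]
    [IsScalarTower k F Ω] [IsAlgClosure F Ω] (x y : F), Transcendental k x →
    algebraMap k F a * y ^ ℓ = aeval x f →
    IntermediateField.adjoin k {x, y} = (⊤ : IntermediateField k F) →
    ∀ N : IntermediateField F Ω, proEllField ℓ k F Ω ≤ N → NoSplitting k F Ω N

/-- No power `σⁿ`, `ℓ ∤ n`, of a certain element `σ` of the Galois group of `k` fixes a root of `f`.
(Equivalently, the Galois group of `f` has an element of `ℓ`-power order that fixes no root.) -/
def HasEllDerangement (ℓ : ℕ) (f : k[X]) : Prop :=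
  ∃ σ : AlgebraicClosure k ≃ₐ[k] AlgebraicClosure k, ∀ n : ℕ, ¬ ℓ ∣ n →
    ∀ θ : AlgebraicClosure k, aeval θ f = 0 → (σ ^ n) θ ≠ θ

end curves

/-- Let `a ∈ k` and `f ∈ k[x]`.  For all finite extensions `k'` of `k` whose degree is not divisible by
`ℓ`: for all `n ≥ 1` divisible by `ℓ` the curve `a yⁿ = f(x)` over `k'` has neither points nor sections,
and the geometrically pro-`ℓ` fundamental group of the curve `a y^ℓ = f(x)` over `k'` has no
section. -/
def NothingOver {k : Type} [Field k] (ℓ : ℕ) (a : k) (f : k[X]) : Prop :=
  ∀ (k' : Type) [Field k'] [Algebra k k'] [FiniteDimensional k k'], ¬ ℓ ∣ Module.finrank k k' →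
    (∀ n : ℕ, 0 < n → ℓ ∣ n → NoPoint n (algebraMap k k' a) (f.map (algebraMap k k')) ∧
      NoSection n (algebraMap k k' a) (f.map (algebraMap k k'))) ∧
    NoProEllSection ℓ (algebraMap k k' a) (f.map (algebraMap k k'))

/-- The polynomial `c₁ + c₂ x + … + c_{d+1} x^d` over `k`, for a vector `(c₀, …, c_{d+1})` of elements
of `R`. -/
noncomputable def poly {R : Type} [CommRing R] (k : Type) [Field k] [Algebra R k] {d : ℕ}
    (c : Fin (d + 2) → R) : k[X] :=
  ∑ i : Fin (d + 1), C (algebraMap R k (c i.succ)) * X ^ (i : ℕ)

/-- The vectors `c = (a, c₀, …, c_d)` of elements of `R` that do not have the following property: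
`a ≠ 0`, the polynomial `f = c₀ + … + c_d x^d` is irreducible of degree `d` over `k`, and for all prime
numbers `ℓ` that divide `d` and all finite extensions `k'` of `k` whose degree is not divisible by `ℓ`,
the curves `a yⁿ = f(x)`, `ℓ ∣ n`, have neither points nor sections over `k'`, and the geometrically
pro-`ℓ` fundamental group of the curve `a y^ℓ = f(x)` over `k'` has no section. -/
def Exceptional (R : Type) [CommRing R] (k : Type) [Field k] [Algebra R k] (d : ℕ) :
    Set (Fin (d + 2) → R) :=
  {c | ¬ (algebraMap R k (c 0) ≠ 0 ∧ (poly k c).natDegree = d ∧ Irreducible (poly k c) ∧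
    ∀ ℓ : ℕ, ℓ.Prime → ℓ ∣ d → NothingOver ℓ (algebraMap R k (c 0)) (poly k c))}

/-- Density zero: for every `ε > 0` there is an ideal `I` of `R` of finite index such that `E` lies
in at most `ε #(R/I)ᴺ` residue classes modulo `I`. -/
def DensityZero {R : Type} [CommRing R] {N : ℕ} (E : Set (Fin N → R)) : Prop :=
  ∀ ε : ℝ, 0 < ε → ∃ I : Ideal R, Finite (R ⧸ I) ∧
    (Set.ncard ((fun (t : Fin N → R) i => Ideal.Quotient.mk I (t i)) '' E) : ℝ) ≤
      ε * (Nat.card (R ⧸ I) : ℝ) ^ N

lemma iSup_congr_prop {α : Type} [CompleteLattice α] {P Q : α → Prop} (h : ∀ L, P L ↔ Q L) :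
    (⨆ L : {L // P L}, L.1) = ⨆ L : {L // Q L}, L.1 := by
  have h1 : P = Q := funext fun L => propext (h L)
  subst h1
  rfl

lemma proEll_eq (ℓ : ℕ) (k F Ω : Type) [Field k] [Field F] [Field Ω] [Algebra k F] [Algebra F Ω]
    [Algebra k Ω] : proEllField ℓ k F Ω = Pool.Agent.Y157.PS.geomPro ℓ k F Ω := by
  unfold proEllField Pool.Agent.Y157.PS.geomPro maxProEll Pool.Agent.Y157.PS.maxPro
  congr 1
  refine iSup_congr_prop fun L => ?_
  constructor
  · rintro ⟨⟨h1, h2, h3⟩, h4⟩
    refine ⟨⟨h1, h2, h3⟩, fun W hW z hz hz0 => ?_⟩
    obtain ⟨t, ht, h5, h6⟩ := h4 W hW z hz hz0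
    exact ⟨t, ht, div_ne_zero hz0 ((_root_.map_ne_zero _).2 ht), h5, h6⟩
  · rintro ⟨⟨h1, h2, h3⟩, h4⟩
    refine ⟨⟨h1, h2, h3⟩, fun W hW z hz hz0 => ?_⟩
    obtain ⟨t, ht, -, h5, h6⟩ := h4 W hW z hz hz0
    exact ⟨t, ht, h5, h6⟩

lemma of_fine {k : Type} [Field k] (l : ℕ) (a : k) (f : k[X])
    (h : Pool.Agent.Y157.PS.FineP l a f) (n : ℕ) (hn : l ∣ n) (hd : l ∣ f.natDegree) :
    NoPoint n a f ∧ NoSection n a f := by
  obtain ⟨-, h1, h2, h3⟩ := h
  obtain ⟨n', rfl⟩ := hn
  refine ⟨⟨?_, ?_⟩, ?_⟩
  · rintro ⟨x, y, hxy⟩
    apply h2 x (y ^ n')
    rw [← hxy, ← pow_mul, mul_comm n' l]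
  · rintro ⟨r, hr⟩
    obtain ⟨e, he⟩ := Nat.dvd_gcd (Dvd.intro n' rfl : l ∣ l * n') hd
    apply h3 (r ^ e)
    rw [← hr, ← pow_mul, mul_comm e l, he]
  · intro F Ω _ _ _ _ _ _ _ x y U hxy hU
    have hcl : IsAlgClosed Ω := IsAlgClosure.isAlgClosed F
    have halg : Algebra.IsAlgebraic F Ω := IsAlgClosure.isAlgebraic
    have h4 := h1 F Ω U hU x (y ^ n') (by rw [← hxy, ← pow_mul, mul_comm n' l])
    exact ⟨fun s => h4.false ⟨s.toHom, s.cont, s.compat⟩⟩

/-- Let `R` be a domain of characteristic zero that is finitely generated as a ring, with fraction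
field `k`; so `k` is any field finitely generated over `ℚ`.  Let `d ≥ 3`.  For all vectors
`(a, c₀, …, c_d)` of elements of `R` outside a set of density zero, the polynomial
`f = c₀ + … + c_d x^d` is irreducible of degree `d` over `k`, and for all prime numbers `ℓ` dividing `d`,
all finite extensions `k'` of `k` whose degree is not divisible by `ℓ`, and all `n ≥ 1` divisible by
`ℓ`: the smooth projective curve over `k'` with the affine equation `a yⁿ = f(x)` has no point over
`k'`, and the fundamental groups of its open subcurves and of all smooth curves over `k'` that dominate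
it have no sections; and the geometrically pro-`ℓ` fundamental group of the curve `a y^ℓ = f(x)` over
`k'` has no section. -/
theorem result (R : Type) [CommRing R] [IsDomain R] [CharZero R] [Algebra.FiniteType ℤ R]
    (k : Type) [Field k] [Algebra R k] [IsFractionRing R k] (d : ℕ) (hd : 3 ≤ d) :
    DensityZero (Exceptional R k d) := by
  intro ε hε
  obtain ⟨I, hI, hle⟩ := Pool.Agent.V11235.SJ.density_all (R := R) (k := k) d hd ε hε
  refine ⟨I, hI, le_trans ?_ hle⟩
  have hsub : (Exceptional R k d : Set (Fin (d + 2) → R)) ⊆
      {c : Fin (d + 2) → R | ¬ Pool.Agent.V11235.SJ.GoodA k c} := by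
    intro c hc hgood
    obtain ⟨h1, h2, h3, h4, -⟩ := hgood
    apply hc
    have hdeg : (poly k c).natDegree = d := Pool.Agent.TH377.Sup.pol_natDegree _ h2
    refine ⟨h1, hdeg, h3, fun ℓ hℓ hℓd K' _ _ _ hK' => ⟨fun n hn hln => ?_, ?_⟩⟩
    · exact of_fine ℓ _ _ (h4 ℓ hℓ hℓd K' hK') n hln (by
        rw [natDegree_map_eq_of_injective (algebraMap k K').injective]
        change ℓ ∣ (poly k c).natDegree
        rw [hdeg]
        exact hℓd)
    · intro F' Ω _ _ _ _ _ _ _ x y hx hxy hF N hN
      have hcl : IsAlgClosed Ω := IsAlgClosure.isAlgClosed F'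
      have halg : Algebra.IsAlgebraic F' Ω := IsAlgClosure.isAlgebraic
      rw [proEll_eq] at hN
      exact ⟨fun s => (h4 ℓ hℓ hℓd K' hK').1 F' Ω x y hx hxy hF N hN s.toHom s.cont s.compat⟩
  exact_mod_cast Set.ncard_le_ncard (Set.image_mono hsub) (Set.toFinite _)

end Pool.Agent.Results.MP_e66f84_ag.AllCurvesPrimeToEll
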