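import Pool.Agent.V11235.SI.CoreG
import Pool.Agent.V11235.SI.CountP
import Pool.Agent.V11235.SE.Der

/-!
# Families over finitely generated fields: extensions of degree prime to `ℓ`, rational, integral and prime parameters

Let `k` be any field finitely generated over `ℚ`, that is, the fraction field of a domain `R` of
characteristic zero that is finitely generated as a ring.  Let `g ∈ k[t]`, `g ≠ 0`, and let
`F ∈ k[t][x]` be of degree `m ≥ 3` in `x`.  For `t ∈ k` and `n ≥ 1` consider the superelliptic curve

  `g(t) yⁿ = F(t, x)`;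

all its coefficients vary with `t`.  Let `ℓ` be a prime number that divides `m`.  Suppose that in some
finite extension `L` of `k` there is a `θ` such that `F(θ, x) ∈ L[x]` has degree `m`, is separable, and
its Galois group over `L` has an element of `ℓ`-power order that fixes no root.  This is so if
`F(θ, x)` is irreducible over `L` and `m = ℓ^r s` with `r ≥ 1`, `s < ℓ`, for instance if `m` is a power
of `ℓ`.  Suppose that `ℓ` does not divide the multiplicity `e` of the root `θ` of `g`.

We say that `t` is *good* if `F(t, x)` has degree `m` and we have: for all `n` divisible by `ℓ`, and for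
**all** finite extensions `k'` of `k` whose degree is not divisible by `ℓ`, the curve
`g(t) yⁿ = F(t, x)` over `k'` has no point over `k'`, and its fundamental group has no section, also
when any set of closed points of the curve over `k'` is removed; and for `n = ℓ` already the
geometrically pro-`ℓ` fundamental group of the curve over `k'` has no section.  So over all these `k'`
the curves `g(t) yⁿ = F(t, x)`, `ℓ ∣ n`, and all smooth curves over `k'` that dominate one of them,
satisfy the section conjecture.  We prove: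

* 100% of the `t ∈ k` are good.  For `t = a/b`, `a, b ∈ R`, the pairs `(a, b)` for which `t` is not good
  have density zero: for every `ε > 0` there is an ideal `I` of `R` of finite index such that they lie
  in at most `ε #(R/I)²` classes of `R²` modulo `I`.
* Already 100% of the rational numbers `t` and 100% of the integers `t` are good: for some `δ > 0` all
  but `O(B² / (log B)^δ)` of the rational numbers of height at most `B`, and all but
  `O(B / (log B)^δ)` of the integers with `|t| ≤ B` are good.
* If `θ ≠ 0`, then 100% of the prime numbers `t` are good: all but `O(B / (log B)^(1 + δ))` of the prime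
  numbers `t ≤ B`.

In the last two points the coefficients of the family and the fields `k'` are arbitrary, only the
parameter is a rational number.  For instance (`θ = 1`, `ℓ = 2`), for 100% of the prime numbers `p` the
curves `(p - 1) yⁿ = x⁴ + z x + p z`, where `n` is even and `z` is a variable, satisfy the section
conjecture over all extensions of `ℚ(z)` of odd degree (Eisenstein's criterion), and (`θ = √3`,
`6 = 3 · 2`) the curves `(p² - 3) yⁿ = x⁶ + p x + p` with `3 ∣ n` satisfy it over all number fields whose
degree is prime to `3`.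

The fundamental group is described through valuations.  Let `U` be a smooth geometrically connected
curve over `k` with function field `F`, let `Ω` be an algebraic closure of `F`, and let `F_U` be the
maximal extension of `F` inside `Ω` which is unramified over the closed points of `U`, that is, over
their local rings, which are valuation rings of `F`.  Then `π₁(U) = Gal(F_U/F)`, and the map
`π₁(U) → G_k` is the restriction of automorphisms to the algebraic closure of `k` in `Ω`.

Proof.  Let `σ` be an element of `ℓ`-power order of the Galois group of `F(θ, x)` over `L` that fixes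
no root.  Then all powers `σⁿ` with `ℓ ∤ n` fix no root.  Let `R' ⊆ L` be a finitely generated ring with
fraction field `L` that contains `R`, `θ` and the coefficients of `F` and of `g / (t - θ)^e`.  There are a
number field `M` and a homomorphism `P : R' → M` such that the polynomial `F(θ, x)` specialised at `P`
is separable of the same degree and has a Galois group over `M` with an element of the same cycle
type, such that `P(θ) ≠ 0` if `θ ≠ 0`, and such that for almost all primes `v` of `M` there is an
embedding `ψ : L → M_v` with `ψ(r) ≡ P(r)` modulo `v²` for all `r ∈ R'` (Hilbert's irreducibility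
theorem).  By Chebotarev's theorem a positive proportion of all prime numbers `p` are norms of primes
`v` of `M` such that `F(θ, x)`, specialised at `P`, has modulo `v` no root in the fields with `pⁿ`
elements, `ℓ ∤ n`.  If `ψ(t)` is congruent to `ψ(θ)` modulo `v` but not modulo `v²`, then
`v(ψ(g(t))) = e`.  Let `k'/k` be a finite extension with `ℓ ∤ [k' : k]`.  Some place `w` of `k'` over the
discrete valuation of `k` given by `ψ` has a ramification index and a residue degree not divisible by
`ℓ`.  So `w(g(t))` is not divisible by `ℓ`, and `F(t, x)` modulo `w` has no root in the residue field of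
`w`, nor in its extensions of degree prime to `ℓ`; the local theorem for the geometrically pro-`ℓ`
fundamental group (library `Pool.Agent.Y141.PS`, `Pool.Agent.Y157.PS`) applies.  The `t` which are not
close to `θ` in this sense for any of the primes `p` are counted with the classes modulo `p²`.  For the
rational, integral and prime `t` this is done with the fundamental lemma of the sieve and Mertens'
theorem: for `t ∈ ℚ` the condition modulo `v²` only depends on `t` modulo `p²`; for prime numbers `t` two
classes are sieved out modulo `p`, the class of `0` and the class given by `θ`, which is not the class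
of `0`.
-/

set_option autoImplicit false

open Polynomial NumberField

namespace Pool.Agent.Results.MP_e66f84_ag.ExtensionsPrimeToEll

section definitions

variable (ℓ : ℕ) (k F Ω : Type) [Field k] [Field F] [Field Ω] [Algebra k F] [Algebra F Ω]
  [Algebra k Ω]

/-- The inertia group of the valuation ring `W` of `Ω`, as a subgroup of `Gal(Ω/F)`: the
automorphisms of `Ω` over `F` that map `W` onto itself and act as the identity on its residue
field. -/
noncomputable def inertia (W : ValuationSubring Ω) : Subgroup (Ω ≃ₐ[F] Ω) :=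
  (W.inertiaSubgroup F).map (W.decompositionSubgroup F).subtype

/-- `F_U`, for a set `U` of valuation rings of `F`: the elements of `Ω` fixed by the inertia groups
of all valuation rings `W` of `Ω` with `W ∩ F ∈ U`.  If `Ω` is an algebraic closure of a field `F`
of characteristic zero, this is the maximal extension of `F` in `Ω` unramified over `U`. -/
noncomputable def unramified (U : Set (ValuationSubring F)) : IntermediateField F Ω :=
  ⨅ W : {W : ValuationSubring Ω // W.comap (algebraMap F Ω) ∈ U},
    IntermediateField.fixedField (inertia F Ω W.1)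

/-- `k̄ F`, the compositum of `F` and of the algebraic closure of `k` in `Ω`. -/
noncomputable def geomField : IntermediateField F Ω :=
  IntermediateField.adjoin F (algebraicClosure k Ω : Set Ω)

/-- The algebraic extension `L` of `K` in `Ω` is unramified at all valuation rings of `Ω` that
contain `k`: every nonzero element of `L` has the same valuation as an element of `K`.  (If `K` is
a function field of one variable over the algebraic closure of `k` and `k` has characteristic zero,
then this says that `L/K` is unramified over all points of the smooth projective curve.) -/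
def Unramified {k K Ω : Type} [Field k] [Field K] [Field Ω] [Algebra k Ω] [Algebra K Ω]
    (L : IntermediateField K Ω) : Prop :=
  ∀ W : ValuationSubring Ω, (∀ c : k, algebraMap k Ω c ∈ W) → ∀ z ∈ L, z ≠ 0 →
    ∃ t : K, t ≠ 0 ∧ z / algebraMap K Ω t ∈ W ∧ (z / algebraMap K Ω t)⁻¹ ∈ W

/-- `L/K` is a finite Galois extension whose degree is a power of `ℓ`. -/
def FiniteProEll (ℓ : ℕ) {K Ω : Type} [Field K] [Field Ω] [Algebra K Ω]
    (L : IntermediateField K Ω) : Prop :=
  FiniteDimensional K L ∧ IsGalois K L ∧ ∃ m : ℕ, Module.finrank K L = ℓ ^ m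

/-- The maximal unramified pro-`ℓ` extension of `K` in `Ω`: the compositum of the finite Galois
extensions of `K` whose degree is a power of `ℓ` and which are unramified. -/
noncomputable def maxProEll (ℓ : ℕ) (k K Ω : Type) [Field k] [Field K] [Field Ω] [Algebra k Ω]
    [Algebra K Ω] : IntermediateField K Ω :=
  ⨆ L : {L : IntermediateField K Ω // FiniteProEll ℓ L ∧ Unramified (k := k) L}, L.1

/-- `M`, the maximal unramified pro-`ℓ` extension of `k̄ F` in `Ω`, as an extension of `F`. -/
noncomputable def proEllField : IntermediateField F Ω :=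
  (maxProEll ℓ k (geomField k F Ω) Ω).restrictScalars F

/-- The map `τ : M → M` acts as `σ : K → K` on the elements that the fields `K` and `M` have in
common when they are regarded as subfields of `Ω` through `i` and `j`. -/
def ActsAs {K M Ω : Type} [Field K] [Field M] [Field Ω] (i : K →+* Ω) (j : M →+* Ω) (σ : K → K)
    (τ : M → M) : Prop :=
  ∀ c z, j z = i c → j (τ z) = i (σ c)

/-- Let `k ⊆ K ⊆ Ω` and `F ⊆ N ⊆ Ω` be fields.  A splitting of `Gal(N/F) → Gal(K/k)`: a continuous
homomorphism `s` from `Gal(K/k)` to `Gal(N/F)` such that `s(σ)` acts as `σ` on the elements of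
`K ∩ N`. -/
structure Splitting (K N : Type) [Field K] [Field N] [Algebra k K] [Algebra F N] [Algebra K Ω]
    [Algebra N Ω] where
  /-- the homomorphism `Gal(K/k) → Gal(N/F)` -/
  toHom : (K ≃ₐ[k] K) →* (N ≃ₐ[F] N)
  cont : Continuous toHom
  compat : ∀ σ : K ≃ₐ[k] K, ActsAs (algebraMap K Ω) (algebraMap N Ω) σ (toHom σ)

/-- There are no sections of `Gal(N/F) → G_k`, where `G_k = Gal(k̄/k)` and `k̄` is the algebraic
closure of `k` in `Ω`.  For `N = F_U` these are the sections of `π₁(U) → G_k`. -/
def NoSplitting (N : IntermediateField F Ω) : Prop :=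
  IsEmpty (Splitting k F Ω (algebraicClosure k Ω) N)

end definitions

section curves

variable {k : Type} [Field k]

/-- The smooth projective curve with the affine equation `a yⁿ = f(x)` has no point over `k`:
neither in the affine part nor at infinity. -/
def NoPoint (n : ℕ) (a : k) (f : k[X]) : Prop :=
  (¬ ∃ x y : k, a * y ^ n = f.eval x) ∧
    ¬ ∃ r : k, a * r ^ Nat.gcd n f.natDegree = f.leadingCoeff

/-- Let `F` be any field over `k` that contains a point `(x, y)` of the curve `a yⁿ = f(x)`, for
instance the function field of the curve, and let `Ω` be an algebraic closure of `F`.  Then for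
every set `U` of valuation rings of `F` over `k` there is no section of `π₁(U) → G_k`.  If `F` is the
function field of the curve, such `U` are given by the smooth projective curve and by all its open
subcurves. -/
def NoSection (n : ℕ) (a : k) (f : k[X]) : Prop :=
  ∀ (F Ω : Type) [Field F] [Field Ω] [Algebra k F] [Algebra F Ω] [Algebra k Ω]
    [IsScalarTower k F Ω] [IsAlgClosure F Ω] (x y : F) (U : Set (ValuationSubring F)),
    algebraMap k F a * y ^ n = aeval x f → (∀ O ∈ U, ∀ c : k, algebraMap k F c ∈ O) →
      NoSplitting k F Ω (unramified F Ω U)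

/-- Let `F = k(x, y)` be the function field of the curve `a y^ℓ = f(x)`, let `Ω` be an algebraic
closure of `F`, and let `M` be the maximal unramified pro-`ℓ` extension of `k̄ F`.  For all
extensions `N ⊇ M` of `F` in `Ω`, in particular for `N = M`, there is no section of
`Gal(N/F) → G_k`. -/
def NoProEllSection (ℓ : ℕ) (a : k) (f : k[X]) : Prop :=
  ∀ (F Ω : Type) [Field F] [Field Ω] [Algebra k F] [Algebra F Ω] [Algebra k Ω]
    [IsScalarTower k F Ω] [IsAlgClosure F Ω] (x y : F), Transcendental k x →
    algebraMap k F a * y ^ ℓ = aeval x f →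
    IntermediateField.adjoin k {x, y} = (⊤ : IntermediateField k F) →
    ∀ N : IntermediateField F Ω, proEllField ℓ k F Ω ≤ N → NoSplitting k F Ω N

/-- No power `σⁿ`, `ℓ ∤ n`, of a certain element `σ` of the Galois group of `k` fixes a root of `f`.
(Equivalently, the Galois group of `f` has an element of `ℓ`-power order that fixes no root.) -/
def HasEllDerangement (ℓ : ℕ) (f : k[X]) : Prop :=
  ∃ σ : AlgebraicClosure k ≃ₐ[k] AlgebraicClosure k, ∀ n : ℕ, ¬ ℓ ∣ n →
    ∀ θ : AlgebraicClosure k, aeval θ f = 0 → (σ ^ n) θ ≠ θ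

end curves

/-- The value `q(θ)` of a polynomial `q ∈ k[t]` at an element `θ` of an extension `L` of `k`. -/
noncomputable def value {k L : Type} [Field k] [Field L] [Algebra k L] (θ : L) : k[X] →+* L :=
  eval₂RingHom (algebraMap k L) θ

/-- The polynomial `F(θ, x) ∈ L[x]` has the same degree `m` as `F ∈ k[t][x]`, is separable, and either
it is irreducible over `L` and `m = ℓ^r s` with `r ≥ 1` and `s < ℓ`, or its Galois group over `L` has an
element of `ℓ`-power order that fixes no root. -/
structure RamifiedAt {k L : Type} [Field k] [Field L] [Algebra k L] (ℓ : ℕ) (F : k[X][X]) (θ : L) :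
    Prop where
  degree : value θ F.leadingCoeff ≠ 0
  separable : (F.map (value θ)).Separable
  moves : (Irreducible (F.map (value θ)) ∧ ∃ r s : ℕ, 0 < r ∧ s < ℓ ∧ F.natDegree = ℓ ^ r * s) ∨
    HasEllDerangement ℓ (F.map (value θ))

/-- The multiplicity of the root `θ ∈ L` of `g ∈ k[t]`. -/
noncomputable def mult {k L : Type} [Field k] [Field L] [Algebra k L] (g : k[X]) (θ : L) : ℕ :=
  (g.map (algebraMap k L)).rootMultiplicity θ

/-- The polynomial `F(t, x) ∈ k[x]`. -/
noncomputable def fibre {k : Type} [Field k] (F : k[X][X]) (t : k) : k[X] := F.map (evalRingHom t)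

/-- Let `a ∈ k` and `f ∈ k[x]`.  For all finite extensions `k'` of `k` whose degree is not divisible by
`ℓ`: for all `n ≥ 1` divisible by `ℓ` the curve `a yⁿ = f(x)` over `k'` has neither points nor sections,
and the geometrically pro-`ℓ` fundamental group of the curve `a y^ℓ = f(x)` over `k'` has no
section. -/
def NothingOver {k : Type} [Field k] (ℓ : ℕ) (a : k) (f : k[X]) : Prop :=
  ∀ (k' : Type) [Field k'] [Algebra k k'] [FiniteDimensional k k'], ¬ ℓ ∣ Module.finrank k k' →
    (∀ n : ℕ, 0 < n → ℓ ∣ n → NoPoint n (algebraMap k k' a) (f.map (algebraMap k k')) ∧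
      NoSection n (algebraMap k k' a) (f.map (algebraMap k k'))) ∧
    NoProEllSection ℓ (algebraMap k k' a) (f.map (algebraMap k k'))

/-- The parameters `t ∈ k` that do not have the following property: `F(t, x)` has the same degree as
`F`, and over all finite extensions `k'` of `k` whose degree is not divisible by `ℓ` the curves
`g(t) yⁿ = F(t, x)`, `ℓ ∣ n`, have neither points nor sections, and the geometrically pro-`ℓ`
fundamental group of the curve `g(t) y^ℓ = F(t, x)` has no section. -/
def Exceptional {k : Type} [Field k] (ℓ : ℕ) (g : k[X]) (F : k[X][X]) : Set k :=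
  {t | ¬ ((fibre F t).natDegree = F.natDegree ∧ NothingOver ℓ (g.eval t) (fibre F t))}

/-- Density zero: for every `ε > 0` there is an ideal `I` of `R` of finite index such that the pairs
`(a, b) ∈ R²` with `a/b ∈ E` lie in at most `ε #(R/I)²` classes of `R²` modulo `I`. -/
def DensityZero (R : Type) [CommRing R] {k : Type} [Field k] [Algebra R k] (E : Set k) : Prop :=
  ∀ ε : ℝ, 0 < ε → ∃ I : Ideal R, Finite (R ⧸ I) ∧
    (Set.ncard ((fun p : R × R => (Ideal.Quotient.mk I p.1, Ideal.Quotient.mk I p.2)) ''
      {p | algebraMap R k p.1 / algebraMap R k p.2 ∈ E}) : ℝ) ≤ ε * (Nat.card (R ⧸ I) : ℝ) ^ 2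

/-- There are `δ > 0` and `C` such that for all `B ≥ 2` at most `C B² / (log B)^δ` rational numbers
`a/b` (in lowest terms) in `E` have height `max(|a|, |b|)` at most `B`, and at most `C B / (log B)^δ`
integers in `E` have absolute value at most `B`. -/
def FewRationals {k : Type} [Field k] (E : Set k) : Prop :=
  ∃ δ C : ℝ, 0 < δ ∧ ∀ B : ℕ, 2 ≤ B →
    (Set.ncard {t : ℚ | (t : k) ∈ E ∧ |t.num| ≤ B ∧ t.den ≤ B} : ℝ) ≤
      C * ((B : ℝ) ^ 2 / Real.log B ^ δ) ∧
    (Set.ncard {n : ℤ | (n : k) ∈ E ∧ |n| ≤ B} : ℝ) ≤ C * (B / Real.log B ^ δ)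

/-- There are `δ > 0` and `C` such that for all `B ≥ 2` at most `C B / (log B)^(1 + δ)` of the prime
numbers that are at most `B` lie in `E`. -/
def FewPrimes {k : Type} [Field k] (E : Set k) : Prop :=
  ∃ δ C : ℝ, 0 < δ ∧ ∀ B : ℕ, 2 ≤ B →
    (Set.ncard {p : ℕ | p.Prime ∧ (p : k) ∈ E ∧ p ≤ B} : ℝ) ≤ C * (B / Real.log B ^ (1 + δ))

lemma iSup_congr_prop {α : Type} [CompleteLattice α] {P Q : α → Prop} (h : ∀ L, P L ↔ Q L) :
    (⨆ L : {L // P L}, L.1) = ⨆ L : {L // Q L}, L.1 := by
  have h1 : P = Q := funext fun L => propext (h L)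
  subst h1
  rfl

lemma proEll_eq (ℓ : ℕ) (k F Ω : Type) [Field k] [Field F] [Field Ω] [Algebra k F] [Algebra F Ω]
    [Algebra k Ω] : proEllField ℓ k F Ω = Pool.Agent.Y157.PS.geomPro ℓ k F Ω := by
  unfold proEllField Pool.Agent.Y157.PS.geomPro maxProEll Pool.Agent.Y157.PS.maxPro
  congr 1
  refine iSup_congr_prop fun L => ?_
  constructor
  · rintro ⟨⟨h1, h2, h3⟩, h4⟩
    refine ⟨⟨h1, h2, h3⟩, fun W hW z hz hz0 => ?_⟩
    obtain ⟨t, ht, h5, h6⟩ := h4 W hW z hz hz0
    exact ⟨t, ht, div_ne_zero hz0 ((_root_.map_ne_zero _).2 ht), h5, h6⟩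
  · rintro ⟨⟨h1, h2, h3⟩, h4⟩
    refine ⟨⟨h1, h2, h3⟩, fun W hW z hz hz0 => ?_⟩
    obtain ⟨t, ht, -, h5, h6⟩ := h4 W hW z hz hz0
    exact ⟨t, ht, h5, h6⟩

lemma of_fine {k : Type} [Field k] (l : ℕ) (a : k) (f : k[X])
    (h : Pool.Agent.Y157.PS.FineP l a f) (n : ℕ) (hn : l ∣ n) (hd : l ∣ f.natDegree) :
    NoPoint n a f ∧ NoSection n a f := by
  obtain ⟨-, h1, h2, h3⟩ := h
  obtain ⟨n', rfl⟩ := hn
  refine ⟨⟨?_, ?_⟩, ?_⟩
  · rintro ⟨x, y, hxy⟩
    apply h2 x (y ^ n')
    rw [← hxy, ← pow_mul, mul_comm n' l]
  · rintro ⟨r, hr⟩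
    obtain ⟨e, he⟩ := Nat.dvd_gcd (Dvd.intro n' rfl : l ∣ l * n') hd
    apply h3 (r ^ e)
    rw [← hr, ← pow_mul, mul_comm e l, he]
  · intro F Ω _ _ _ _ _ _ _ x y U hxy hU
    have hcl : IsAlgClosed Ω := IsAlgClosure.isAlgClosed F
    have halg : Algebra.IsAlgebraic F Ω := IsAlgClosure.isAlgebraic
    have h4 := h1 F Ω U hU x (y ^ n') (by rw [← hxy, ← pow_mul, mul_comm n' l])
    exact ⟨fun s => h4.false ⟨s.toHom, s.cont, s.compat⟩⟩

open Pool.Agent.V11235.SD in
lemma core {R : Type} [CommRing R] [IsDomain R] [CharZero R] [Algebra.FiniteType ℤ R] {k : Type}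
    [Field k] [Algebra R k] [IsFractionRing R k] (g : k[X]) (hg : g ≠ 0) (F : k[X][X])
    (h3 : 3 ≤ F.natDegree) (ℓ : ℕ) (hℓ : ℓ.Prime) (hm : ℓ ∣ F.natDegree) (L : Type) [Field L]
    [Algebra k L] [FiniteDimensional k L] (θ : L) (h : RamifiedAt ℓ F θ) (he : ¬ ℓ ∣ mult g θ) :
    ∃ S : Set ℕ, (∀ p ∈ S, p.Prime) ∧ Pool.Agent.V11235.SF.Dense S ∧ ∀ p ∈ S,
      ∃ (χ : R →+* ZMod (p ^ 2)) (Θ : ZMod (p ^ 2)), (θ ≠ 0 → IsUnit Θ) ∧
        ∀ a b : R, Good p Θ (χ a) (χ b) →
          algebraMap R k a / algebraMap R k b ∉ Exceptional ℓ g F := by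
  have hczk : CharZero k := charZero_of_injective_algebraMap (IsFractionRing.injective R k)
  have hczL : CharZero L := charZero_of_injective_algebraMap (algebraMap k L).injective
  have hdeg : (F.map (value θ)).natDegree = F.natDegree :=
    natDegree_map_of_leadingCoeff_ne_zero _ h.degree
  have hσ : HasEllDerangement ℓ (F.map (value θ)) := by
    rcases h.moves with ⟨h1, r, s, hr, hs, hrs⟩ | h1
    · exact Pool.Agent.V11235.SE.ell_derangement ℓ hℓ _ h1 r s hr hs (by rw [hdeg, hrs])
    · exact h1
  obtain ⟨S, hSp, hSd, hSv⟩ := Pool.Agent.V11235.SI.core_fg_ell (R := R) ℓ hℓ g F h3 θ hg h.degree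
    h.separable hσ hm he
  refine ⟨S, hSp, hSd, fun p hp => ?_⟩
  obtain ⟨χ, Θ, hΘ, hχ⟩ := hSv p hp
  refine ⟨χ, Θ, hΘ, fun a b hgood hex => hex ?_⟩
  obtain ⟨hd, hfine⟩ := hχ a b hgood
  refine ⟨hd, fun K' _ _ _ hK' => ⟨fun n hn hln => ?_, ?_⟩⟩
  · exact of_fine ℓ _ _ (hfine K' hK') n hln (by
      rw [natDegree_map_eq_of_injective (algebraMap k K').injective]
      change ℓ ∣ (F.map (evalRingHom (algebraMap R k a / algebraMap R k b))).natDegree
      rw [hd]
      exact hm)
  · intro F' Ω _ _ _ _ _ _ _ x y hx hxy hF N hN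
    have hcl : IsAlgClosed Ω := IsAlgClosure.isAlgClosed F'
    have halg : Algebra.IsAlgebraic F' Ω := IsAlgClosure.isAlgebraic
    rw [proEll_eq] at hN
    exact ⟨fun s => (hfine K' hK').1 F' Ω x y hx hxy hF N hN s.toHom s.cont s.compat⟩

open Pool.Agent.V11235.SD in
lemma densityZero {R : Type} [CommRing R] {k : Type} [Field k] [Algebra R k] (E : Set k)
    (S : Set ℕ) (hSp : ∀ p ∈ S, p.Prime) (hSd : Pool.Agent.V11235.SF.Dense S)
    (hSv : ∀ p ∈ S, ∃ (χ : R →+* ZMod (p ^ 2)) (Θ : ZMod (p ^ 2)),
      ∀ a b : R, Good p Θ (χ a) (χ b) → algebraMap R k a / algebraMap R k b ∉ E) :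
    DensityZero R E := by
  classical
  intro ε hε
  obtain ⟨δ, C, hδ, hSd⟩ := hSd
  obtain ⟨T, hTS, hTε⟩ := small_prod S hSp
    (Pool.Agent.W723.SecC.diverge _ δ C hδ hSd) ε hε
  have hv : ∀ p : T, ∃ (χ : R →+* ZMod (p.1 ^ 2)) (Θ : ZMod (p.1 ^ 2)), ∀ a b : R,
      Good p.1 Θ (χ a) (χ b) → algebraMap R k a / algebraMap R k b ∉ E :=
    fun p => hSv p.1 (hTS p.1 p.2)
  choose χ Θ hχ using hv
  have hTp : ∀ p ∈ T, p.Prime := fun p hp => hSp p (hTS p hp)
  obtain ⟨J, hJ, hJE⟩ := count_pairs T hTp χ Θ
    {p : R × R | algebraMap R k p.1 / algebraMap R k p.2 ∈ E} (by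
    rintro ⟨a, b⟩ hbad p hgood
    exact hχ p a b hgood hbad)
  refine ⟨J, hJ, hJE.trans ?_⟩
  exact mul_le_mul_of_nonneg_right hTε.le (by positivity)

open Pool.Agent.V11235.SD in
lemma fewRationals {R : Type} [CommRing R] {k : Type} [Field k] [Algebra R k] (E : Set k)
    (S : Set ℕ) (hSp : ∀ p ∈ S, p.Prime) (hSd : Pool.Agent.V11235.SF.Dense S)
    (hSv : ∀ p ∈ S, ∃ (χ : R →+* ZMod (p ^ 2)) (Θ : ZMod (p ^ 2)),
      ∀ a b : R, Good p Θ (χ a) (χ b) → algebraMap R k a / algebraMap R k b ∉ E) :
    FewRationals E := by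
  classical
  obtain ⟨η, C, hη, -, hcount⟩ := Pool.Agent.V11235.SF.rat_count S hSp hSd
  refine ⟨η, C, hη, fun B hB => ?_⟩
  choose χ Θ hχ using hSv
  have h := hcount (fun p => if hp : p ∈ S then Θ p hp else 0) {t : ℚ | (t : k) ∈ E} (by
    intro p hp t ht
    rw [dif_pos hp]
    intro hgood
    refine hχ p hp (t.num : R) ((t.den : ℤ) : R) ?_ ?_
    · rw [map_intCast, map_intCast]
      exact hgood
    · rw [map_intCast, map_intCast, Int.cast_natCast, ← Rat.cast_def]
      exact ht) B hB
  refine ⟨h.1, ?_⟩
  have h2 := h.2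
  simp only [Set.mem_ofPred_eq, Rat.cast_intCast] at h2
  exact h2

open Pool.Agent.V11235.SD in
lemma fewPrimes {R : Type} [CommRing R] {k : Type} [Field k] [Algebra R k] (E : Set k)
    (S : Set ℕ) (hSp : ∀ p ∈ S, p.Prime) (hSd : Pool.Agent.V11235.SF.Dense S)
    (hSv : ∀ p ∈ S, ∃ (χ : R →+* ZMod (p ^ 2)) (Θ : ZMod (p ^ 2)), IsUnit Θ ∧
      ∀ a b : R, Good p Θ (χ a) (χ b) → algebraMap R k a / algebraMap R k b ∉ E) :
    FewPrimes E := by
  classical
  obtain ⟨η, C, hη, -, hcount⟩ := Pool.Agent.V11235.SI.prime_count S hSp hSd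
  refine ⟨η, C, hη, fun B hB => ?_⟩
  choose χ Θ hΘ hχ using hSv
  exact hcount (fun p => if hp : p ∈ S then Θ p hp else 0) (by
    intro p hp
    rw [dif_pos hp]
    exact hΘ p hp) {n : ℕ | (n : k) ∈ E} (by
    intro p hp n hn
    rw [dif_pos hp]
    intro hgood
    refine hχ p hp ((n : ℤ) : R) ((1 : ℤ) : R) ?_ ?_
    · rw [map_intCast, map_intCast]
      exact hgood
    · rw [map_intCast, map_intCast, Int.cast_natCast, Int.cast_one, div_one]
      exact hn) B hB

/-- Let `k` be a field finitely generated over `ℚ`, the fraction field of a finitely generated domain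
`R`, let `g ∈ k[t]`, `g ≠ 0`, let `F ∈ k[t][x]` be of degree `m ≥ 3` in `x`, let `ℓ` be a prime number
that divides `m`, and let `θ` in a finite extension `L` of `k` be as in the definition `RamifiedAt`, a
root of `g` whose multiplicity is not divisible by `ℓ`.  Call `t ∈ k` good if the polynomial `F(t, x)`
has degree `m` and we have for all finite extensions `k'` of `k` whose degree is not divisible by `ℓ`
and all `n ≥ 1` divisible by `ℓ`: the smooth projective curve over `k'` with the affine equation
`g(t) yⁿ = F(t, x)` has no point over `k'`, and the fundamental groups of its open subcurves and of all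
smooth curves over `k'` that dominate it have no sections; and the geometrically pro-`ℓ` fundamental
group of the curve `g(t) y^ℓ = F(t, x)` over `k'` has no section.  Then all `t = a/b`, `(a, b) ∈ R²`
outside a set of density zero, are good; for some `δ > 0` all but `O(B² / (log B)^δ)` rational numbers
`t` of height at most `B` and all but `O(B / (log B)^δ)` integers `t` with `|t| ≤ B` are good; and if
`θ ≠ 0`, then all but `O(B / (log B)^(1 + δ))` prime numbers `t ≤ B` are good. -/
theorem result (R : Type) [CommRing R] [IsDomain R] [CharZero R] [Algebra.FiniteType ℤ R]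
    (k : Type) [Field k] [Algebra R k] [IsFractionRing R k] (g : k[X]) (hg : g ≠ 0) (F : k[X][X])
    (h3 : 3 ≤ F.natDegree) (ℓ : ℕ) (hℓ : ℓ.Prime) (hm : ℓ ∣ F.natDegree) (L : Type) [Field L]
    [Algebra k L] [FiniteDimensional k L] (θ : L) (h : RamifiedAt ℓ F θ) (he : ¬ ℓ ∣ mult g θ) :
    DensityZero R (Exceptional ℓ g F) ∧ FewRationals (Exceptional ℓ g F) ∧
      (θ ≠ 0 → FewPrimes (Exceptional ℓ g F)) := by
  obtain ⟨S, hSp, hSd, hSv⟩ := core (R := R) g hg F h3 ℓ hℓ hm L θ h he
  refine ⟨densityZero _ S hSp hSd fun p hp => ?_, fewRationals (R := R) _ S hSp hSd fun p hp => ?_,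
    fun hθ => fewPrimes (R := R) _ S hSp hSd fun p hp => ?_⟩
  · obtain ⟨χ, Θ, -, hχ⟩ := hSv p hp
    exact ⟨χ, Θ, hχ⟩
  · obtain ⟨χ, Θ, -, hχ⟩ := hSv p hp
    exact ⟨χ, Θ, hχ⟩
  · obtain ⟨χ, Θ, hΘ, hχ⟩ := hSv p hp
    exact ⟨χ, Θ, hΘ hθ, hχ⟩

end Pool.Agent.Results.MP_e66f84_ag.ExtensionsPrimeToEll
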