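import Pool.Agent.V11235.SD.Main

/-!
# The section conjecture for 100% of the rational fibres of families with one ramified fibre

Let `k` be any field finitely generated over `ℚ`, that is, the fraction field of a domain `R` of
characteristic zero that is finitely generated as a ring.  Let `g ∈ k[t]`, `g ≠ 0`, and let
`F ∈ k[t][x]` be of degree `m ≥ 3` in `x`.  For `t ∈ k` and `n ≥ 1` consider the superelliptic curve

  `g(t) yⁿ = F(t, x)`

over `k`; all its coefficients vary with `t`, and the family need not be isotrivial.  Suppose that in
some finite extension `L` of `k` there is a `θ` such that `F(θ, x) ∈ L[x]` has degree `m`, is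
separable, and is irreducible over `L` or, more generally, has a Galois group over `L` with an element
that fixes no root.  Let `e` be the multiplicity of the root `θ` of `g`.

Then for 100% of the points `t = a/b`, `a, b ∈ R`, of the line we have: for all `n ≥ 1` such that some
prime number divides `n` and `m` but not `e` (so for `e = 1` for all `n` which are not coprime to `m`),
the curve `g(t) yⁿ = F(t, x)` has no point over `k`, and its fundamental group has no section, also
when any set of closed points of the curve is removed.  So these curves, and all smooth curves over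
`k` that dominate one of them, satisfy the section conjecture.  Moreover, for all prime numbers `ℓ`
which divide `m` but not `e`, already the geometrically pro-`ℓ` fundamental group of the curve
`g(t) y^ℓ = F(t, x)` has no section.  The exceptional pairs `(a, b)` have density zero in a strong
sense: for every `ε > 0` there is an ideal `I` of `R` of finite index such that they lie in at most
`ε #(R/I)²` classes of `R²` modulo `I`.

For instance, for 100% of the rational numbers `t` the curves `t yⁿ = x⁶ + t x + 2` with `gcd(n, 6) > 1`
satisfy the section conjecture (`θ = 0`, Eisenstein's criterion), and so do the curves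
`(t² - 3) yⁿ = x⁵ + t x + t`, `5 ∣ n` (`θ = √3`).

The fundamental group is described through valuations.  Let `U` be a smooth geometrically connected
curve over `k` with function field `F`, let `Ω` be an algebraic closure of `F`, and let `F_U` be the
maximal extension of `F` inside `Ω` which is unramified over the closed points of `U`, that is, over
their local rings, which are valuation rings of `F`.  Then `π₁(U) = Gal(F_U/F)`, and the map
`π₁(U) → G_k` is the restriction of automorphisms to the algebraic closure of `k` in `Ω`.

Proof.  Let `R' ⊆ L` be a finitely generated ring with fraction field `L` that contains `R`, `θ` and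
the coefficients of `F` and of `g / (t - θ)^e`.  As in `FunctionFieldTwists` there are a number field
`M` and a homomorphism `P : R' → M` such that the polynomial `F(θ, x)` specialised at `P` is separable
of degree `m` and has a Galois group over `M` with an element that fixes no root, and such that for
almost all primes `v` of `M` there is an embedding `ψ : L → M_v` with `ψ(r) ≡ P(r)` modulo `v²` for all
`r ∈ R'`.  By Chebotarev's theorem there are many primes `v` of prime norm `p`, unramified over `ℚ`,
modulo which this polynomial has no root.  The reduction modulo `v²` gives a homomorphism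
`χ : R' → ℤ/p²`.  If `χ(b)` is a unit and `χ(a) - χ(θ) χ(b)` is `p` times a unit, then for `t = a/b` the
valuation of `ψ(t) - ψ(θ)` is one, so the valuation of `ψ(g(t))` is `e`, and `ψ(F(t, x))` is congruent
to `ψ(F(θ, x))` modulo `v`.  So the local theorem for the geometrically pro-`ℓ` fundamental group
(library `Pool.Agent.Y141.PS`, `Pool.Agent.Y157.PS`) applies to the discrete valuation of `k` given by
`ψ`.  This happens for `p (p - 1)²` of the `p⁴` pairs of classes modulo `p²`, also for the classes of
the pairs of elements of the subring `R`, which contains `ℤ`; and the sum of the `1/p` diverges.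
-/

set_option autoImplicit false

open Polynomial

namespace Pool.Agent.Results.MP_e66f84_ag.RationalFibres

section definitions

variable (ℓ : ℕ) (k F Ω : Type) [Field k] [Field F] [Field Ω] [Algebra k F] [Algebra F Ω]
  [Algebra k Ω]

/-- The inertia group of the valuation ring `W` of `Ω`, as a subgroup of `Gal(Ω/F)`: the
automorphisms of `Ω` over `F` that map `W` onto itself and act as the identity on its residue
field. -/
noncomputable def inertia (W : ValuationSubring Ω) : Subgroup (Ω ≃ₐ[F] Ω) :=
  (W.inertiaSubgroup F).map (W.decompositionSubgroup F).subtype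

/-- `F_U`, for a set `U` of valuation rings of `F`: the elements of `Ω` fixed by the inertia groups
of all valuation rings `W` of `Ω` with `W ∩ F ∈ U`.  If `Ω` is an algebraic closure of a field `F`
of characteristic zero, this is the maximal extension of `F` in `Ω` unramified over `U`. -/
noncomputable def unramified (U : Set (ValuationSubring F)) : IntermediateField F Ω :=
  ⨅ W : {W : ValuationSubring Ω // W.comap (algebraMap F Ω) ∈ U},
    IntermediateField.fixedField (inertia F Ω W.1)

/-- `k̄ F`, the compositum of `F` and of the algebraic closure of `k` in `Ω`. -/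
noncomputable def geomField : IntermediateField F Ω :=
  IntermediateField.adjoin F (algebraicClosure k Ω : Set Ω)

/-- The algebraic extension `L` of `K` in `Ω` is unramified at all valuation rings of `Ω` that
contain `k`: every nonzero element of `L` has the same valuation as an element of `K`.  (If `K` is
a function field of one variable over the algebraic closure of `k` and `k` has characteristic zero,
then this says that `L/K` is unramified over all points of the smooth projective curve.) -/
def Unramified {k K Ω : Type} [Field k] [Field K] [Field Ω] [Algebra k Ω] [Algebra K Ω]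
    (L : IntermediateField K Ω) : Prop :=
  ∀ W : ValuationSubring Ω, (∀ c : k, algebraMap k Ω c ∈ W) → ∀ z ∈ L, z ≠ 0 →
    ∃ t : K, t ≠ 0 ∧ z / algebraMap K Ω t ∈ W ∧ (z / algebraMap K Ω t)⁻¹ ∈ W

/-- `L/K` is a finite Galois extension whose degree is a power of `ℓ`. -/
def FiniteProEll (ℓ : ℕ) {K Ω : Type} [Field K] [Field Ω] [Algebra K Ω]
    (L : IntermediateField K Ω) : Prop :=
  FiniteDimensional K L ∧ IsGalois K L ∧ ∃ m : ℕ, Module.finrank K L = ℓ ^ m

/-- The maximal unramified pro-`ℓ` extension of `K` in `Ω`: the compositum of the finite Galois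
extensions of `K` whose degree is a power of `ℓ` and which are unramified. -/
noncomputable def maxProEll (ℓ : ℕ) (k K Ω : Type) [Field k] [Field K] [Field Ω] [Algebra k Ω]
    [Algebra K Ω] : IntermediateField K Ω :=
  ⨆ L : {L : IntermediateField K Ω // FiniteProEll ℓ L ∧ Unramified (k := k) L}, L.1

/-- `M`, the maximal unramified pro-`ℓ` extension of `k̄ F` in `Ω`, as an extension of `F`. -/
noncomputable def proEllField : IntermediateField F Ω :=
  (maxProEll ℓ k (geomField k F Ω) Ω).restrictScalars F

/-- The map `τ : M → M` acts as `σ : K → K` on the elements that the fields `K` and `M` have in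
common when they are regarded as subfields of `Ω` through `i` and `j`. -/
def ActsAs {K M Ω : Type} [Field K] [Field M] [Field Ω] (i : K →+* Ω) (j : M →+* Ω) (σ : K → K)
    (τ : M → M) : Prop :=
  ∀ c z, j z = i c → j (τ z) = i (σ c)

/-- Let `k ⊆ K ⊆ Ω` and `F ⊆ N ⊆ Ω` be fields.  A splitting of `Gal(N/F) → Gal(K/k)`: a continuous
homomorphism `s` from `Gal(K/k)` to `Gal(N/F)` such that `s(σ)` acts as `σ` on the elements of
`K ∩ N`. -/
structure Splitting (K N : Type) [Field K] [Field N] [Algebra k K] [Algebra F N] [Algebra K Ω]
    [Algebra N Ω] where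
  /-- the homomorphism `Gal(K/k) → Gal(N/F)` -/
  toHom : (K ≃ₐ[k] K) →* (N ≃ₐ[F] N)
  cont : Continuous toHom
  compat : ∀ σ : K ≃ₐ[k] K, ActsAs (algebraMap K Ω) (algebraMap N Ω) σ (toHom σ)

/-- There are no sections of `Gal(N/F) → G_k`, where `G_k = Gal(k̄/k)` and `k̄` is the algebraic
closure of `k` in `Ω`.  For `N = F_U` these are the sections of `π₁(U) → G_k`. -/
def NoSplitting (N : IntermediateField F Ω) : Prop :=
  IsEmpty (Splitting k F Ω (algebraicClosure k Ω) N)

end definitions

section curves

variable {k : Type} [Field k]

/-- The smooth projective curve with the affine equation `a yⁿ = f(x)` has no point over `k`: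
neither in the affine part nor at infinity. -/
def NoPoint (n : ℕ) (a : k) (f : k[X]) : Prop :=
  (¬ ∃ x y : k, a * y ^ n = f.eval x) ∧
    ¬ ∃ r : k, a * r ^ Nat.gcd n f.natDegree = f.leadingCoeff

/-- Let `F` be any field over `k` that contains a point `(x, y)` of the curve `a yⁿ = f(x)`, for
instance the function field of the curve, and let `Ω` be an algebraic closure of `F`.  Then for
every set `U` of valuation rings of `F` over `k` there is no section of `π₁(U) → G_k`.  If `F` is the
function field of the curve, such `U` are given by the smooth projective curve and by all its open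
subcurves. -/
def NoSection (n : ℕ) (a : k) (f : k[X]) : Prop :=
  ∀ (F Ω : Type) [Field F] [Field Ω] [Algebra k F] [Algebra F Ω] [Algebra k Ω]
    [IsScalarTower k F Ω] [IsAlgClosure F Ω] (x y : F) (U : Set (ValuationSubring F)),
    algebraMap k F a * y ^ n = aeval x f → (∀ O ∈ U, ∀ c : k, algebraMap k F c ∈ O) →
      NoSplitting k F Ω (unramified F Ω U)

/-- Let `F = k(x, y)` be the function field of the curve `a y^ℓ = f(x)`, let `Ω` be an algebraic
closure of `F`, and let `M` be the maximal unramified pro-`ℓ` extension of `k̄ F`.  For all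
extensions `N ⊇ M` of `F` in `Ω`, in particular for `N = M`, there is no section of
`Gal(N/F) → G_k`. -/
def NoProEllSection (ℓ : ℕ) (a : k) (f : k[X]) : Prop :=
  ∀ (F Ω : Type) [Field F] [Field Ω] [Algebra k F] [Algebra F Ω] [Algebra k Ω]
    [IsScalarTower k F Ω] [IsAlgClosure F Ω] (x y : F), Transcendental k x →
    algebraMap k F a * y ^ ℓ = aeval x f →
    IntermediateField.adjoin k {x, y} = (⊤ : IntermediateField k F) →
    ∀ N : IntermediateField F Ω, proEllField ℓ k F Ω ≤ N → NoSplitting k F Ω N

/-- Some element of the Galois group of `k` fixes no root of `f`. -/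
def HasDerangement (f : k[X]) : Prop :=
  ∃ σ : AlgebraicClosure k ≃ₐ[k] AlgebraicClosure k,
    ∀ θ : AlgebraicClosure k, aeval θ f = 0 → σ θ ≠ θ

end curves

/-- The value `q(θ)` of a polynomial `q ∈ k[t]` at an element `θ` of an extension `L` of `k`. -/
noncomputable def value {k L : Type} [Field k] [Field L] [Algebra k L] (θ : L) : k[X] →+* L :=
  eval₂RingHom (algebraMap k L) θ

/-- The polynomial `F(θ, x) ∈ L[x]` has the same degree as `F ∈ k[t][x]`, is separable, and is
irreducible over `L` or has a Galois group over `L` with an element that fixes no root. -/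
structure RamifiedAt {k L : Type} [Field k] [Field L] [Algebra k L] (F : k[X][X]) (θ : L) : Prop where
  degree : value θ F.leadingCoeff ≠ 0
  separable : (F.map (value θ)).Separable
  moves : Irreducible (F.map (value θ)) ∨ HasDerangement (F.map (value θ))

/-- The multiplicity of the root `θ ∈ L` of `g ∈ k[t]`. -/
noncomputable def mult {k L : Type} [Field k] [Field L] [Algebra k L] (g : k[X]) (θ : L) : ℕ :=
  (g.map (algebraMap k L)).rootMultiplicity θ

/-- The polynomial `F(t, x) ∈ k[x]`. -/
noncomputable def fibre {k : Type} [Field k] (F : k[X][X]) (t : k) : k[X] := F.map (evalRingHom t)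

/-- Some prime number divides `n` and `m` but not `e`. -/
def Admissible (n m e : ℕ) : Prop := ∃ ℓ : ℕ, ℓ.Prime ∧ ℓ ∣ n ∧ ℓ ∣ m ∧ ¬ ℓ ∣ e

/-- The pairs `(a, b)` of elements of `R` for which `t = a/b` does not have the following property:
`F(t, x)` has the same degree `m` as `F`; for all `n ≥ 1` such that some prime number divides `n` and
`m` but not `e` the curve `g(t) yⁿ = F(t, x)` over `k` has neither points nor sections; and for all
prime numbers `ℓ` which divide `m` but not `e` the geometrically pro-`ℓ` fundamental group of the
curve `g(t) y^ℓ = F(t, x)` has no section. -/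
def Exceptional (R : Type) [CommRing R] {k : Type} [Field k] [Algebra R k] (g : k[X]) (F : k[X][X])
    (e : ℕ) : Set (R × R) :=
  {p | ¬ ∀ t : k, t = algebraMap R k p.1 / algebraMap R k p.2 →
    (fibre F t).natDegree = F.natDegree ∧
    (∀ n : ℕ, 0 < n → Admissible n F.natDegree e →
      NoPoint n (g.eval t) (fibre F t) ∧ NoSection n (g.eval t) (fibre F t)) ∧
    ∀ ℓ : ℕ, ℓ.Prime → ℓ ∣ F.natDegree → ¬ ℓ ∣ e → NoProEllSection ℓ (g.eval t) (fibre F t)}

/-- Density zero: for every `ε > 0` there is an ideal `I` of `R` of finite index such that `E` lies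
in at most `ε #(R/I)²` classes of `R²` modulo `I`. -/
def DensityZero {R : Type} [CommRing R] (E : Set (R × R)) : Prop :=
  ∀ ε : ℝ, 0 < ε → ∃ I : Ideal R, Finite (R ⧸ I) ∧
    (Set.ncard ((fun p : R × R => (Ideal.Quotient.mk I p.1, Ideal.Quotient.mk I p.2)) '' E) : ℝ) ≤
      ε * (Nat.card (R ⧸ I) : ℝ) ^ 2

lemma iSup_congr_prop {α : Type} [CompleteLattice α] {P Q : α → Prop} (h : ∀ L, P L ↔ Q L) :
    (⨆ L : {L // P L}, L.1) = ⨆ L : {L // Q L}, L.1 := by
  have h1 : P = Q := funext fun L => propext (h L)
  subst h1
  rfl

lemma proEll_eq (ℓ : ℕ) (k F Ω : Type) [Field k] [Field F] [Field Ω] [Algebra k F] [Algebra F Ω]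
    [Algebra k Ω] : proEllField ℓ k F Ω = Pool.Agent.Y157.PS.geomPro ℓ k F Ω := by
  unfold proEllField Pool.Agent.Y157.PS.geomPro maxProEll Pool.Agent.Y157.PS.maxPro
  congr 1
  refine iSup_congr_prop fun L => ?_
  constructor
  · rintro ⟨⟨h1, h2, h3⟩, h4⟩
    refine ⟨⟨h1, h2, h3⟩, fun W hW z hz hz0 => ?_⟩
    obtain ⟨t, ht, h5, h6⟩ := h4 W hW z hz hz0
    exact ⟨t, ht, div_ne_zero hz0 ((_root_.map_ne_zero _).2 ht), h5, h6⟩
  · rintro ⟨⟨h1, h2, h3⟩, h4⟩
    refine ⟨⟨h1, h2, h3⟩, fun W hW z hz hz0 => ?_⟩
    obtain ⟨t, ht, -, h5, h6⟩ := h4 W hW z hz hz0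
    exact ⟨t, ht, h5, h6⟩

lemma of_fine {k : Type} [Field k] (l : ℕ) (a : k) (f : k[X])
    (h : Pool.Agent.Y157.PS.FineP l a f) (n : ℕ) (hn : l ∣ n) (hd : l ∣ f.natDegree) :
    NoPoint n a f ∧ NoSection n a f := by
  obtain ⟨-, h1, h2, h3⟩ := h
  obtain ⟨n', rfl⟩ := hn
  refine ⟨⟨?_, ?_⟩, ?_⟩
  · rintro ⟨x, y, hxy⟩
    apply h2 x (y ^ n')
    rw [← hxy, ← pow_mul, mul_comm n' l]
  · rintro ⟨r, hr⟩
    obtain ⟨e, he⟩ := Nat.dvd_gcd (Dvd.intro n' rfl : l ∣ l * n') hd
    apply h3 (r ^ e)
    rw [← hr, ← pow_mul, mul_comm e l, he]
  · intro F Ω _ _ _ _ _ _ _ x y U hxy hU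
    have hcl : IsAlgClosed Ω := IsAlgClosure.isAlgClosed F
    have halg : Algebra.IsAlgebraic F Ω := IsAlgClosure.isAlgebraic
    have h4 := h1 F Ω U hU x (y ^ n') (by rw [← hxy, ← pow_mul, mul_comm n' l])
    exact ⟨fun s => h4.false ⟨s.toHom, s.cont, s.compat⟩⟩

/-- Let `R` be a domain of characteristic zero that is finitely generated as a ring, with fraction
field `k`; so `k` is any field finitely generated over `ℚ`.  Let `g ∈ k[t]`, `g ≠ 0`, let `F ∈ k[t][x]`
be of degree `m ≥ 3` in `x`, and let `θ` in a finite extension `L` of `k` be as in the definition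
`RamifiedAt`, a root of `g` of multiplicity `e`.  Then for all pairs `(a, b) ∈ R²` outside a set of
density zero we have for `t = a/b`: the polynomial `F(t, x)` has degree `m`; for all `n ≥ 1` such that
some prime number divides `n` and `m` but not `e`, the smooth projective curve with the affine equation
`g(t) yⁿ = F(t, x)` has no point over `k`, and the fundamental groups of its open subcurves and of all
smooth curves over `k` that dominate it have no sections; and for all prime numbers `ℓ` that divide
`m` but not `e` the geometrically pro-`ℓ` fundamental group of `g(t) y^ℓ = F(t, x)` has no section. -/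
theorem result (R : Type) [CommRing R] [IsDomain R] [CharZero R] [Algebra.FiniteType ℤ R]
    (k : Type) [Field k] [Algebra R k] [IsFractionRing R k] (g : k[X]) (hg : g ≠ 0) (F : k[X][X])
    (h3 : 3 ≤ F.natDegree) (L : Type) [Field L] [Algebra k L] [FiniteDimensional k L] (θ : L)
    (h : RamifiedAt F θ) : DensityZero (Exceptional R g F (mult g θ)) := by
  have hcz : CharZero k := charZero_of_injective_algebraMap (IsFractionRing.injective R k)
  have hczL : CharZero L := charZero_of_injective_algebraMap (algebraMap k L).injective
  have hdeg : (F.map (value θ)).natDegree = F.natDegree :=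
    natDegree_map_of_leadingCoeff_ne_zero _ h.degree
  have hσ : HasDerangement (F.map (value θ)) := by
    rcases h.moves with h1 | h1
    · exact Pool.Agent.W52.SecC.D3.partD3 L _ h1 (by omega)
    · exact h1
  intro ε hε
  obtain ⟨I, hI, hIE⟩ := Pool.Agent.V11235.SD.density_pairs (R := R) g F h3 θ hg h.degree
    h.separable hσ ε hε
  refine ⟨I, hI, le_trans ?_ hIE⟩
  have hsub : Exceptional R g F (mult g θ) ⊆
      {x : R × R | ¬ ((F.map (evalRingHom (algebraMap R k x.1 / algebraMap R k x.2))).natDegree =
            F.natDegree ∧ ∀ ℓ : ℕ, ℓ.Prime → ℓ ∣ F.natDegree →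
          ¬ ℓ ∣ (g.map (algebraMap k L)).rootMultiplicity θ →
          Pool.Agent.Y157.PS.FineP ℓ (g.eval (algebraMap R k x.1 / algebraMap R k x.2))
            (F.map (evalRingHom (algebraMap R k x.1 / algebraMap R k x.2))))} := by
    rintro ⟨a, b⟩ hab ⟨hd, hfine⟩
    apply hab
    rintro _ rfl
    refine ⟨hd, fun n hn hadm => ?_, fun ℓ hℓ hℓd hℓe => ?_⟩
    · obtain ⟨l, hl, hln, hld, hle⟩ := hadm
      exact of_fine l _ _ (hfine l hl hld hle) n hln (by
        change l ∣ (F.map (evalRingHom (algebraMap R k a / algebraMap R k b))).natDegree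
        rw [hd]
        exact hld)
    · intro F' Ω _ _ _ _ _ _ _ x y hx hxy hF N hN
      have hcl : IsAlgClosed Ω := IsAlgClosure.isAlgClosed F'
      have halg : Algebra.IsAlgebraic F' Ω := IsAlgClosure.isAlgebraic
      rw [proEll_eq] at hN
      exact ⟨fun s => (hfine ℓ hℓ hℓd hℓe).1 F' Ω x y hx hxy hF N hN s.toHom s.cont s.compat⟩
  have hfin : Finite ((R ⧸ I) × (R ⧸ I)) := inferInstance
  exact_mod_cast Set.ncard_le_ncard (Set.image_mono hsub) (Set.toFinite _)

end Pool.Agent.Results.MP_e66f84_ag.RationalFibres
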