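import Mathlib
import Pool.Agent.V1118.SpD
import Pool.Agent.Results.MP_e66f84_ag.SelmerSectionsOfTwists

/-!
# Locally geometric sections for the quadratic twists by `± ⌊α n ^ c⌋`, `c > 1`

Let `e_1, …, e_r` be different integers, `r ≥ 6` even, such that for every `i` four of the numbers
`1 / (e_l - e_i)`, `l ≠ i`, form an arithmetic progression (and the condition `CrossRatio`); this is
so for `0, 6, 10, 15, 30, -30`.  For all real `c > 1` and all `α > 0` outside a set of Hausdorff
dimension smaller than one (which does not depend on the `e_i`), at least `N / 5` of the `n ≤ N` are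
such that `⌊α n ^ c⌋` is squarefree, and for all but `C N (log N) ^ (-1/5)` of them the following
holds for `d = ± ⌊α n ^ c⌋`: every section of `π₁(U) → G_ℚ`, where `U` is the curve
`d y² = ∏ (x - e_i)` or an open subcurve, which is given over the completions of `ℚ` at the finite
places by local points, has all these local points equal to one and the same rational point, which is
one of the points `(e_i, 0)`.

As in the starting result `SelmerSectionsOfTwists`, which is about the sequence of all squarefree `d`,
we use that the Tate-Shafarevich group of one elliptic curve over `ℚ` of conductor 24 is killed by a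
positive integer (a theorem of Kolyvagin).
-/

set_option autoImplicit false

open Pool.Agent.V1118.SpD Pool.Agent.TH954

namespace Pool.Agent.Results.MP_e66f84_ag.SparseTwists

/-- `d` is squarefree and some section of the fundamental group of the curve `d y² = ∏ (x - e_i)`, or of
an open subcurve, which is given by local points at all finite places does not have all these local
points equal to one of the points `(e_i, 0)` -/
def Bad {r : ℕ} (e : Fin r → ℤ) (d : ℤ) : Prop :=
  Squarefree d ∧ ¬ SelmerSectionsOfTwists.LocalPointsAreRational e d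

theorem result (M₀ : ℕ) (hM₀ : 1 ≤ M₀)
    (hSha : ShaKilledBy (Pool.Agent.TH942.sw (-351) (1890 : ℚ)) M₀) (c : ℝ) (hc : 1 < c) :
    ∃ E : Set ℝ, dimH E < 1 ∧ ∀ α : ℝ, 0 < α → α ∉ E →
      ManySquarefree α c ∧
      ∀ (r : ℕ) (e : Fin r → ℤ), Function.Injective e → Even r → 6 ≤ r →
        SelmerSectionsOfTwists.CrossRatio e → SelmerSectionsOfTwists.Progressions e →
        FewAlong α c (1 / 5) (Bad e) := by
  obtain ⟨E, hE, h⟩ := uniform_const (ι := Σ r : ℕ, (Fin r → ℤ)) (δ := 1 / 5)
    (fun k => Function.Injective k.2 ∧ Even k.1 ∧ 6 ≤ k.1 ∧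
      SelmerSectionsOfTwists.CrossRatio k.2 ∧ SelmerSectionsOfTwists.Progressions k.2)
    (fun k => Bad k.2) (by norm_num) (fun k hk => by
      obtain ⟨C, hC⟩ := (SelmerSectionsOfTwists.result M₀ hM₀ hSha).1 (Fin k.1) k.2 hk.1
        (by rw [Fintype.card_fin]; exact hk.2.1) (by rw [Fintype.card_fin]; exact hk.2.2.1)
        hk.2.2.2.1 hk.2.2.2.2
      exact ⟨C, fun X hX => hC X (by omega)⟩) c hc
  exact ⟨E, hE, fun α hα hαE => ⟨(h α hα hαE).1, fun r e h1 h2 h3 h4 h5 =>
    (h α hα hαE).2 ⟨r, e⟩ ⟨h1, h2, h3, h4, h5⟩⟩⟩

end Pool.Agent.Results.MP_e66f84_ag.SparseTwists
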